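import Pool.Agent.P8H27.LO.Orb

/-!
# Means over Galois orbits and means over the product of the groups `Bj`
-/

set_option autoImplicit false

namespace Pool.Agent.P8H27.LO

open Pool.Agent.P8H27.EQ (mean mean_eq_sum mean_congr orb)

/-- a mean of numbers close to `I` is close to `I` -/
theorem avg_near {B : Type} [Fintype B] [Nonempty B] {a : B → ℝ} {I ε : ℝ}
    (h : ∀ b, |a b - I| ≤ ε) : |(∑ b, a b) / (Fintype.card B : ℝ) - I| ≤ ε := by
  have hB : (0 : ℝ) < Fintype.card B := by exact_mod_cast Fintype.card_pos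
  have h2 : (∑ b, a b) / (Fintype.card B : ℝ) - I =
      (∑ b, (a b - I)) / (Fintype.card B : ℝ) := by
    rw [Finset.sum_sub_distrib, Finset.sum_const, Finset.card_univ, nsmul_eq_mul, sub_div,
      mul_div_cancel_left₀ _ hB.ne']
  rw [h2, abs_div, abs_of_pos hB, div_le_iff₀ hB]
  refine (Finset.abs_sum_le_sum_abs _ _).trans ?_
  refine (Finset.sum_le_sum fun b _ => h b).trans ?_
  rw [Finset.sum_const, Finset.card_univ, nsmul_eq_mul, mul_comm]

section tuple

variable {G : Type} [Group G] {r : ℕ} {Y : Fin r → Type} [∀ j, MulAction G (Y j)]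
  (p : ∀ j, GaloisPacket G (Y j))

/-- the element of the product of the groups `Bj` -/
def bel (y : Tup p) (b : ∀ j, Bj p y j) : Hh p y :=
  ⟨(fun j => (b j : (p j).A) : ∀ j, (p j).A), Bj_mem p y b⟩

/-- the tuple moved by an element of the product of the groups `Bj` -/
def bmv (y : Tup p) (b : ∀ j, Bj p y j) (z : Tup p) : Tup p := fun j => (b j : (p j).A) • z.fn j

theorem bel_smul (y : Tup p) (b : ∀ j, Bj p y j) (h : Hh p y) :
    (bel p y b * h) • y = bmv p y b (h • y) := by
  rw [mul_smul]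
  rfl

/-- the mean over the orbit of the image of `N` -/
theorem near_H (F : Tup p → ℝ) (y : Tup p) {I ε : ℝ}
    (h : ∀ z : Tup p, |mean F (fun b : ∀ j, Bj p y j => bmv p y b z) - I| ≤ ε)
    [Fintype (Hg p)] : |(∑ h : Hg p, F (h • y)) / (Fintype.card (Hg p) : ℝ) - I| ≤ ε := by
  classical
  have hfh : Fintype (Hh p y) := Fintype.ofFinite _
  have hfB : Fintype (∀ j, Bj p y j) := Fintype.ofFinite _
  have hB : (Fintype.card (∀ j, Bj p y j) : ℝ) ≠ 0 := by exact_mod_cast Fintype.card_ne_zero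
  have h1 : (∑ h : Hg p, F (h • y)) / (Fintype.card (Hg p) : ℝ) =
      (∑ h : Hh p y, F (h • y)) / (Fintype.card (Hh p y) : ℝ) := by
    rw [← orb (Tup p) (Hg p) F y, ← orb (Tup p) (Hh p y) F y]
    exact mean_congr (Equiv.setCongr (orbit_Hh p y).symm) fun z => rfl
  have h2 : (∑ h : Hh p y, F (h • y)) / (Fintype.card (Hh p y) : ℝ) =
      (∑ h : Hh p y, (∑ b : ∀ j, Bj p y j, F (bmv p y b (h • y))) /
        (Fintype.card (∀ j, Bj p y j) : ℝ)) / (Fintype.card (Hh p y) : ℝ) := by
    congr 1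
    rw [← Finset.sum_div, Finset.sum_comm, eq_div_iff hB]
    have h3 : ∀ b : ∀ j, Bj p y j, ∑ h : Hh p y, F (bmv p y b (h • y)) =
        ∑ h : Hh p y, F (h • y) := by
      intro b
      rw [← Equiv.sum_comp (Equiv.mulLeft (bel p y b)) fun h : Hh p y => F (h • y)]
      apply Finset.sum_congr rfl
      intro h _
      rw [← bel_smul]
      rfl
    rw [Finset.sum_congr rfl fun b _ => h3 b, Finset.sum_const, Finset.card_univ, nsmul_eq_mul,
      mul_comm]
  rw [h1, h2]
  apply avg_near
  intro h'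
  have h4 := h (h' • y)
  rw [mean_eq_sum] at h4
  exact h4

/-- **the mean over the Galois orbit** -/
theorem near_G (F : Tup p → ℝ) (x : Tup p) {I ε : ℝ}
    (h : ∀ y ∈ MulAction.orbit G x, ∀ z : Tup p,
      |mean F (fun b : ∀ j, Bj p y j => bmv p y b z) - I| ≤ ε) :
    |mean F (fun y : MulAction.orbit G x => (y : Tup p)) - I| ≤ ε := by
  classical
  have hfH : Fintype (Hg p) := Fintype.ofFinite _
  have hfO : Fintype (MulAction.orbit G x) := Fintype.ofFinite _
  have hH : (Fintype.card (Hg p) : ℝ) ≠ 0 := by exact_mod_cast Fintype.card_ne_zero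
  have hne : Nonempty (MulAction.orbit G x) := ⟨⟨x, MulAction.mem_orbit_self x⟩⟩
  have h1 : mean F (fun y : MulAction.orbit G x => (y : Tup p)) =
      (∑ y : MulAction.orbit G x, (∑ h : Hg p, F (h • (y : Tup p))) /
        (Fintype.card (Hg p) : ℝ)) / (Fintype.card (MulAction.orbit G x) : ℝ) := by
    rw [mean_eq_sum]
    congr 1
    rw [← Finset.sum_div, Finset.sum_comm, eq_div_iff hH]
    have h3 : ∀ h : Hg p, ∑ y : MulAction.orbit G x, F (h • (y : Tup p)) =
        ∑ y : MulAction.orbit G x, F (y : Tup p) := by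
      rintro ⟨_, σ, rfl⟩
      rw [← Equiv.sum_comp (MulAction.toPerm (σ : G)) fun y : MulAction.orbit G x =>
        F (y : Tup p)]
      apply Finset.sum_congr rfl
      intro y _
      congr 1
      exact rh_smul p σ y
    rw [Finset.sum_congr rfl fun h _ => h3 h, Finset.sum_const, Finset.card_univ, nsmul_eq_mul,
      mul_comm]
  rw [h1]
  apply avg_near
  intro y
  exact near_H p F y (h y y.2)

end tuple

end Pool.Agent.P8H27.LO
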