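import Pool.Agent.P8H27.EQ.Pim

/-!
# Definitions: large Galois orbits of tuples of special points
-/

set_option autoImplicit false

namespace Pool.Agent.P8H27.LO

open MeasureTheory Pool.Agent.P8H27.EQ

/-- A packet of special points on a space `Y` with an action of the Galois group `G` (of a number field `F` over
which `Y` has its canonical model).

Here `disc` is the absolute value of the discriminant of the points, `pts` the finite set of points, for instance
of all CM points of this discriminant, `A` a finite commutative group (the class group of the order, or a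
larger group) which acts transitively on `pts`, and `E` is a normal subgroup of finite index of `G`, whose
elements act on `pts` through a homomorphism `rho` to `A` (for instance the Galois group of a Galois extension of
`F` which contains the CM field). -/
structure GaloisPacket (G : Type) [Group G] (Y : Type) [MulAction G Y] where
  disc : ℕ
  E : Subgroup G
  normal : E.Normal
  finiteIndex : E.FiniteIndex
  pts : Set Y
  finite_pts : pts.Finite
  stable : ∀ (g : G) (z : Y), z ∈ pts → g • z ∈ pts
  A : Type
  [comm : CommGroup A]
  [fin : Finite A]
  [act : MulAction A pts]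
  transitive : ∀ z z' : pts, ∃ a : A, a • z = z'
  rho : E →* A
  galois : ∀ (σ : E) (z : pts), (σ : G) • (z : Y) = (rho σ • z : pts)

attribute [instance] GaloisPacket.comm GaloisPacket.fin GaloisPacket.act GaloisPacket.normal
  GaloisPacket.finiteIndex

section family

variable {G : Type} [Group G] {Y : Type} [MulAction G Y]

/-- The indices of the groups `E` of the packets in the family `𝔓` are bounded. -/
def BoundedDegree (𝔓 : Set (GaloisPacket G Y)) : Prop := ∃ C : ℕ, ∀ p ∈ 𝔓, p.E.index ≤ C

/-- The means of `f` over the orbits of all subgroups of `A` of index at most `disc ^ η` converge to the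
integral of `f`, uniformly. -/
def SmallIndexAt [MeasurableSpace Y] (η : ℝ) (μ : ProbabilityMeasure Y) (𝔓 : Set (GaloisPacket G Y))
    (f : Y → ℝ) : Prop :=
  ∀ ε : ℝ, 0 < ε → ∃ D₀ : ℕ, ∀ p ∈ 𝔓, D₀ ≤ p.disc → ∀ B : Subgroup p.A,
    (B.index : ℝ) ≤ (p.disc : ℝ) ^ η → ∀ z : p.pts,
      |mean f (fun b : B => (((b : p.A) • z : p.pts) : Y)) - ∫ y, f y ∂(μ : Measure Y)| ≤ ε

end family

end Pool.Agent.P8H27.LO
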