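import Pool.Agent.P8H27.LO.Rel

/-!
# Large Galois orbits are equidistributed
-/

set_option autoImplicit false

namespace Pool.Agent.P8H27.LO

open MeasureTheory Filter Topology
open scoped BoundedContinuousFunction ENNReal
open Pool.Agent.P8H27.EQ (mean mean_eq_sum mean_congr orb pim)

variable {G : Type} [Group G] {r : ℕ} {Y : Fin r → Type}
  [∀ j, MulAction G (Y j)] [∀ j, TopologicalSpace (Y j)] [∀ j, SecondCountableTopology (Y j)]
  [∀ j, TopologicalSpace.PseudoMetrizableSpace (Y j)] [∀ j, MeasurableSpace (Y j)]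
  [∀ j, BorelSpace (Y j)]

theorem largeOrbits (μ : ∀ j, ProbabilityMeasure (Y j))
    (𝔓 : ∀ j, Set (GaloisPacket G (Y j))) (h𝔓 : ∀ j, BoundedDegree (𝔓 j)) {η η' : ℝ}
    (hη : η' < η) (hμ : ∀ j, ∀ f : Y j →ᵇ ℝ, SmallIndexAt η (μ j) (𝔓 j) f)
    (p : ℕ → ∀ j, GaloisPacket G (Y j)) (hp : ∀ i j, p i j ∈ 𝔓 j)
    (hdisc : ∀ j, Tendsto (fun i => (p i j).disc) atTop atTop)
    (x : ℕ → ∀ j, Y j) (hx : ∀ i j, x i j ∈ (p i j).pts)
    (hsize : ∀ᶠ i in atTop, ∀ j, (Nat.card (p i j).pts : ℝ) *
        Nat.card (MulAction.orbit G fun k : {k : Fin r // k ≠ j} => x i k) ≤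
      ((p i j).disc : ℝ) ^ η' * Nat.card (MulAction.orbit G (x i)))
    (f : (∀ j, Y j) →ᵇ ℝ) :
    Tendsto (fun i => mean f (fun y : MulAction.orbit G (x i) => (y : ∀ j, Y j))) atTop
      (𝓝 (∫ y, f y ∂(Measure.pi fun j => (μ j : Measure (Y j))))) := by
  classical
  set I := ∫ y, f y ∂(Measure.pi fun j => (μ j : Measure (Y j))) with hI
  choose C hC using h𝔓
  let x' : ∀ i, Tup (p i) := fun i j => ⟨x i j, hx i j⟩
  -- the means over the orbits of products of subgroups of small index
  have key : ∀ ε : ℝ, 0 < ε → ∀ᶠ i in atTop, ∀ B : ∀ j, Subgroup (p i j).A,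
      (∀ j, ((B j).index : ℝ) ≤ ((p i j).disc : ℝ) ^ η) → ∀ y : Tup (p i),
      |mean f (fun b : ∀ j, B j =>
        (fun j => ((((b j : (p i j).A)) • y.fn j : (p i j).pts) : Y j))) - I| ≤ ε := by
    intro ε hε
    by_contra hc
    let D : ℕ → Type := fun i => {By : (∀ j, Subgroup (p i j).A) × Tup (p i) //
      ∀ j, ((By.1 j).index : ℝ) ≤ ((p i j).disc : ℝ) ^ η}
    let bad : ∀ i, (∀ j, Subgroup (p i j).A) → Tup (p i) → Prop := fun i B y =>
      ¬ |mean f (fun b : ∀ j, B j =>
        (fun j => ((((b j : (p i j).A)) • y.fn j : (p i j).pts) : Y j))) - I| ≤ ε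
    let c : ∀ i, (∀ j, Subgroup (p i j).A) × Tup (p i) := fun i =>
      if h : ∃ By : (∀ j, Subgroup (p i j).A) × Tup (p i),
        (∀ j, ((By.1 j).index : ℝ) ≤ ((p i j).disc : ℝ) ^ η) ∧ bad i By.1 By.2 then h.choose
      else (fun _ => ⊤, x' i)
    have hy : ∀ i, (∃ By : (∀ j, Subgroup (p i j).A) × Tup (p i),
        (∀ j, ((By.1 j).index : ℝ) ≤ ((p i j).disc : ℝ) ^ η) ∧ bad i By.1 By.2) →
        bad i (c i).1 (c i).2 := by
      intro i h
      have h1 : c i = h.choose := dif_pos h
      rw [h1]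
      exact h.choose_spec.2
    by_cases hηpos : 0 ≤ η
    · have hidx : ∀ i j, 1 ≤ (p i j).disc →
          (((c i).1 j).index : ℝ) ≤ ((p i j).disc : ℝ) ^ η := by
        intro i j hd
        by_cases h : ∃ By : (∀ j, Subgroup (p i j).A) × Tup (p i),
          (∀ j, ((By.1 j).index : ℝ) ≤ ((p i j).disc : ℝ) ^ η) ∧ bad i By.1 By.2
        · have h1 : c i = h.choose := dif_pos h
          rw [h1]
          exact h.choose_spec.1 j
        · have h1 : c i = (fun _ => ⊤, x' i) := dif_neg h
          rw [h1]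
          show ((⊤ : Subgroup (p i j).A).index : ℝ) ≤ _
          rw [Subgroup.index_top, Nat.cast_one]
          exact Real.one_le_rpow (by exact_mod_cast hd) hηpos
      have hlim := pim r Y μ (fun i j => ((c i).1 j)) (fun i j => inferInstance)
        (fun i j => inferInstance)
        (fun i j b => (((b : (p i j).A) • (c i).2.fn j : (p i j).pts) : Y j))
        (by
          intro j g
          rw [Metric.tendsto_atTop]
          intro δ hδ
          obtain ⟨D₂, h3⟩ := hμ j g (δ / 2) (half_pos hδ)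
          obtain ⟨i₀, hi₀⟩ := eventually_atTop.1
            ((hdisc j).eventually_ge_atTop (max 1 D₂))
          refine ⟨i₀, fun i hi => ?_⟩
          have hD := hi₀ i hi
          have h4 := h3 (p i j) (hp i j) ((le_max_right _ _).trans hD) ((c i).1 j)
            (hidx i j ((le_max_left _ _).trans hD)) ((c i).2.fn j)
          rw [Real.dist_eq]
          exact lt_of_le_of_lt h4 (half_lt_self hδ))
        f
      have h5 : ∀ᶠ i in atTop, ¬ bad i (c i).1 (c i).2 := by
        rw [Metric.tendsto_atTop] at hlim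
        obtain ⟨i₀, hi₀⟩ := hlim ε hε
        refine eventually_atTop.2 ⟨i₀, fun i hi => ?_⟩
        have h6 := hi₀ i hi
        rw [Real.dist_eq] at h6
        exact not_not.2 h6.le
      apply hc
      filter_upwards [h5] with i hi B hB z
      by_contra hz
      exact hi (hy i ⟨(B, z), hB, hz⟩)
    · -- if `η < 0` then there are no subgroups of small index
      rcases Nat.eq_zero_or_pos r with hr | hr
      · subst hr
        apply hc
        refine Filter.Eventually.of_forall fun i B hB y => ?_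
        have h1 : ∀ z : ∀ j, Y j, f z = I := by
          intro z
          have h2 : (fun y : ∀ j, Y j => f y) = fun _ => f z := by
            funext y
            congr 1
            funext j
            exact j.elim0
          rw [hI, h2]
          simp
        have hfB : Fintype (∀ j, B j) := Fintype.ofFinite _
        rw [mean_eq_sum, Finset.sum_congr rfl fun b _ => h1 _, Finset.sum_const,
          Finset.card_univ, nsmul_eq_mul, mul_div_cancel_left₀, sub_self, abs_zero]
        · exact hε.le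
        · exact_mod_cast Fintype.card_ne_zero
      · apply hc
        filter_upwards [(hdisc ⟨0, hr⟩).eventually_ge_atTop 2] with i hi B hB z
        exfalso
        have h1 := hB ⟨0, hr⟩
        have h2 : ((p i ⟨0, hr⟩).disc : ℝ) ^ η < 1 := by
          apply Real.rpow_lt_one_of_one_lt_of_neg
          · have : (2 : ℝ) ≤ (p i ⟨0, hr⟩).disc := by exact_mod_cast hi
            linarith
          · push Not at hηpos
            exact hηpos
        have h3 : (1 : ℝ) ≤ (B ⟨0, hr⟩).index := by
          exact_mod_cast Nat.pos_of_ne_zero Subgroup.index_ne_zero_of_finite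
        linarith
  -- the indices
  have hidx : ∀ᶠ i in atTop, ∀ j, ((∏ k, C k : ℕ) : ℝ) * ((p i j).disc : ℝ) ^ η' ≤
      ((p i j).disc : ℝ) ^ η := by
    rw [Filter.eventually_all]
    intro j
    have h1 : Tendsto (fun D : ℕ => (D : ℝ) ^ (η - η')) atTop atTop :=
      (tendsto_rpow_atTop (sub_pos.2 hη)).comp tendsto_natCast_atTop_atTop
    have h2 := (h1.comp (hdisc j)).eventually_ge_atTop ((∏ k, C k : ℕ) : ℝ)
    filter_upwards [h2, (hdisc j).eventually_ge_atTop 1] with i hi hd
    have hpos : (0 : ℝ) < (p i j).disc := by exact_mod_cast hd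
    calc ((∏ k, C k : ℕ) : ℝ) * ((p i j).disc : ℝ) ^ η'
        ≤ ((p i j).disc : ℝ) ^ (η - η') * ((p i j).disc : ℝ) ^ η' :=
          mul_le_mul_of_nonneg_right hi (Real.rpow_nonneg hpos.le _)
      _ = ((p i j).disc : ℝ) ^ η := by
          rw [← Real.rpow_add hpos]
          congr 1
          ring
  rw [Metric.tendsto_atTop]
  intro ε hε
  obtain ⟨i₀, hi₀⟩ := eventually_atTop.1 ((key (ε / 2) (half_pos hε)).and (hidx.and hsize))
  refine ⟨i₀, fun i hi => ?_⟩
  obtain ⟨hk, hj, hsz⟩ := hi₀ i hi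
  have hN : (N (p i)).index ≤ ∏ k, C k :=
    (Subgroup.index_iInf_le _).trans (Finset.prod_le_prod' fun k _ => hC k (p i k) (hp i k))
  have hmain := near_G (p i) (fun y => f (pt (p i) y)) (x' i) (I := I) (ε := ε / 2) (by
    intro y hy z
    refine hk (fun j => Bj (p i) y j) (fun j => ?_) z
    have h0 : (0 : ℝ) ≤ ((p i j).disc : ℝ) ^ η' := Real.rpow_nonneg (Nat.cast_nonneg _) _
    have h1 : (Nat.card (p i j).pts : ℝ) *
        (MulAction.orbit G (res (p i) j (x' i))).ncard ≤
        ((p i j).disc : ℝ) ^ η' * (MulAction.orbit G (x' i)).ncard := by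
      have h2 := hsz j
      have h3 : Nat.card (MulAction.orbit G (x i)) = (MulAction.orbit G (x' i)).ncard :=
        orbit_card (p i) (x' i)
      have h4 : Nat.card (MulAction.orbit G fun k : {k : Fin r // k ≠ j} => x i k) =
          (MulAction.orbit G (res (p i) j (x' i))).ncard :=
        orbit_rcard (p i) j (res (p i) j (x' i))
      rw [h3, h4] at h2
      exact h2
    have h5 := index_Bj_le (p i) j hy h0 h1
    calc ((Bj (p i) y j).index : ℝ) ≤ ((N (p i)).index : ℝ) * ((p i j).disc : ℝ) ^ η' := h5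
      _ ≤ ((∏ k, C k : ℕ) : ℝ) * ((p i j).disc : ℝ) ^ η' := by
          apply mul_le_mul_of_nonneg_right _ h0
          exact_mod_cast hN
      _ ≤ _ := hj j)
  have hO : mean f (fun y : MulAction.orbit G (x i) => (y : ∀ j, Y j)) =
      mean (fun y => f (pt (p i) y)) (fun y : MulAction.orbit G (x' i) => (y : Tup (p i))) := by
    symm
    have h1 : ∀ y : MulAction.orbit G (x' i), pt (p i) y ∈ MulAction.orbit G (x i) := by
      rintro ⟨_, ⟨g, rfl⟩⟩
      exact ⟨g, rfl⟩
    refine mean_congr (Equiv.ofBijective (fun y => ⟨pt (p i) y, h1 y⟩) ⟨?_, ?_⟩) fun y => rfl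
    · intro y z h
      apply Subtype.ext
      exact pt_inj (p i) (congrArg Subtype.val h)
    · rintro ⟨_, g, rfl⟩
      exact ⟨⟨g • x' i, ⟨g, rfl⟩⟩, rfl⟩
  rw [Real.dist_eq, hO]
  exact lt_of_le_of_lt hmain (half_lt_self hε)

end Pool.Agent.P8H27.LO
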