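import Pool.Agent.P8H27.LO.Avg

/-!
# The size of a Galois orbit relative to the other coordinates
-/

set_option autoImplicit false

namespace Pool.Agent.P8H27.LO

open Pool.Agent.P8H27.EQ (mean mean_eq_sum mean_congr orb)

section tuple

variable {G : Type} [Group G] {r : ℕ} {Y : Fin r → Type} [∀ j, MulAction G (Y j)]
  (p : ∀ j, GaloisPacket G (Y j)) (j : Fin r)

/-- the tuples without the coordinate `j` -/
def RT : Type := ∀ k : {k : Fin r // k ≠ j}, (p k).pts

instance rtFinite : Finite (RT p j) :=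
  inferInstanceAs (Finite (∀ k : {k : Fin r // k ≠ j}, (p k).pts))

/-- the coordinates -/
def RT.fn {p : ∀ j, GaloisPacket G (Y j)} {j : Fin r} (y : RT p j) :
    ∀ k : {k : Fin r // k ≠ j}, (p k).pts := y

instance aaActR : MulAction (AA p) (RT p j) where
  smul a y := fun k => a.fn k • y.fn k
  one_smul y := by
    funext k
    exact one_smul _ (y.fn k)
  mul_smul a b y := by
    funext k
    exact mul_smul (a.fn k) (b.fn k) (y.fn k)

instance gActR : MulAction G (RT p j) where
  smul g y := fun k => ⟨g • (y.fn k : Y k), (p k).stable g _ (y.fn k).2⟩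
  one_smul y := by
    funext k
    exact Subtype.ext (one_smul _ _)
  mul_smul g h y := by
    funext k
    exact Subtype.ext (mul_smul _ _ _)

/-- the restriction of a tuple -/
def res (y : Tup p) : RT p j := fun k => y.fn k

theorem res_aa (a : AA p) (y : Tup p) : res p j (a • y) = a • res p j y := rfl

theorem res_g (g : G) (y : Tup p) : res p j (g • y) = g • res p j y := rfl

theorem rh_res (σ : N p) (y : Tup p) : rh p σ • res p j y = (σ : G) • res p j y := by
  rw [← res_aa, rh_smul, res_g]

theorem orbit_res (y : Tup p) :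
    MulAction.orbit (Hh p y) (res p j y) = MulAction.orbit (N p) (res p j y) := by
  apply Set.Subset.antisymm
  · rintro _ ⟨⟨a, ha⟩, rfl⟩
    unfold Hh at ha
    rw [Subgroup.mem_sup] at ha
    obtain ⟨_, ⟨σ, rfl⟩, s, hs, rfl⟩ := ha
    refine ⟨σ, ?_⟩
    show (σ : G) • res p j y = (rh p σ * s) • res p j y
    rw [mul_smul, ← res_aa p j s, MulAction.mem_stabilizer_iff.1 hs, rh_res]
  · rintro _ ⟨σ, rfl⟩
    refine ⟨⟨rh p σ, Subgroup.mem_sup_left ⟨σ, rfl⟩⟩, ?_⟩
    exact rh_res p j σ y

/-- the stabilizer of the restricted tuple -/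
def W (y : Tup p) : Subgroup (AA p) := MulAction.stabilizer (AA p) (res p j y)

theorem mem_W {y : Tup p} {a : AA p} : a ∈ W p j y ↔ ∀ k, k ≠ j → a.fn k • y.fn k = y.fn k := by
  unfold W
  rw [MulAction.mem_stabilizer_iff]
  constructor
  · intro h k hk
    exact congrFun h ⟨k, hk⟩
  · intro h
    funext k
    exact h k k.2

/-- the element with one coordinate -/
def sgl (b : (p j).A) : AA p := (Pi.mulSingle j b : ∀ k, (p k).A)

theorem mem_Bj {y : Tup p} {b : (p j).A} : b ∈ Bj p y j ↔ sgl p j b ∈ Hh p y := Iff.rfl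

theorem sgl_fn (b : (p j).A) : (sgl p j b).fn j = b :=
  Pi.mulSingle_eq_same (M := fun k => (p k).A) j b

theorem sgl_fn_ne (b : (p j).A) {k : Fin r} (h : k ≠ j) : (sgl p j b).fn k = 1 :=
  Pi.mulSingle_eq_of_ne (M := fun k => (p k).A) h b

theorem sgl_mem_W (y : Tup p) (b : (p j).A) : sgl p j b ∈ W p j y := by
  rw [mem_W]
  intro k hk
  rw [sgl_fn_ne p j b hk, one_smul]

theorem stab_le (y : Tup p) : MulAction.stabilizer (p j).A (y.fn j) ≤ Bj p y j := by
  intro b hb
  rw [mem_Bj]
  apply Subgroup.mem_sup_right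
  rw [MulAction.mem_stabilizer_iff]
  funext k
  by_cases hk : k = j
  · subst hk
    show (sgl p k b).fn k • y.fn k = y.fn k
    rw [sgl_fn]
    exact hb
  · show (sgl p j b).fn k • y.fn k = y.fn k
    rw [sgl_fn_ne p j b hk, one_smul]

/-- an element of `Hh` which fixes the other coordinates comes from `Bj` -/
theorem fn_mem (y : Tup p) {a : AA p} (ha : a ∈ W p j y ⊓ Hh p y) : a.fn j ∈ Bj p y j := by
  rw [mem_Bj]
  have h1 : a * (sgl p j (a.fn j))⁻¹ ∈ MulAction.stabilizer (AA p) y := by
    rw [MulAction.mem_stabilizer_iff]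
    funext k
    by_cases hk : k = j
    · subst hk
      show (a.fn k * ((sgl p k (a.fn k)).fn k)⁻¹) • y.fn k = y.fn k
      rw [sgl_fn, mul_inv_cancel, one_smul]
    · show (a.fn k * ((sgl p j (a.fn j)).fn k)⁻¹) • y.fn k = y.fn k
      rw [sgl_fn_ne p j _ hk, inv_one, mul_one]
      exact (mem_W p j).1 ha.1 k hk
  have h2 : sgl p j (a.fn j) = (a * (sgl p j (a.fn j))⁻¹)⁻¹ * a := by
    rw [mul_inv, inv_inv, mul_comm a⁻¹, mul_assoc, inv_mul_cancel, mul_one]
  rw [h2]
  exact (Hh p y).mul_mem ((Hh p y).inv_mem (Subgroup.mem_sup_right h1)) ha.2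

/-- the orbit of a tuple under the elements which fix the other coordinates -/
theorem orbit_WH (y : Tup p) : (MulAction.orbit ↥(W p j y ⊓ Hh p y) y).ncard =
    (MulAction.orbit (Bj p y j) (y.fn j)).ncard := by
  have h1 : ∀ z ∈ MulAction.orbit ↥(W p j y ⊓ Hh p y) y, ∀ k, k ≠ j → z.fn k = y.fn k := by
    rintro _ ⟨⟨a, ha⟩, rfl⟩ k hk
    exact (mem_W p j).1 ha.1 k hk
  apply Set.ncard_congr (fun z _ => z.fn j)
  · rintro _ ⟨⟨a, ha⟩, rfl⟩
    exact ⟨⟨a.fn j, fn_mem p j y ha⟩, rfl⟩
  · intro z w hz hw h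
    funext k
    by_cases hk : k = j
    · subst hk
      exact h
    · exact (h1 z hz k hk).trans (h1 w hw k hk).symm
  · rintro _ ⟨⟨b, hb⟩, rfl⟩
    refine ⟨sgl p j b • y, ⟨⟨sgl p j b, sgl_mem_W p j y b, hb⟩, rfl⟩, ?_⟩
    show (sgl p j b).fn j • y.fn j = b • y.fn j
    rw [sgl_fn]

/-- **the relative size of an orbit** -/
theorem relative (y : Tup p) : (MulAction.orbit (N p) y).ncard * (Bj p y j).index =
    Nat.card (p j).pts * (MulAction.orbit (N p) (res p j y)).ncard := by
  set St := MulAction.stabilizer (AA p) y with hSt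
  have hStW : St ≤ W p j y ⊓ Hh p y := by
    refine le_inf ?_ le_sup_right
    intro a ha
    rw [mem_W]
    intro k _
    have h0 : a • y = y := MulAction.mem_stabilizer_iff.1 ha
    exact congrArg (fun z : Tup p => z.fn k) h0
  have h1 : St.relIndex (W p j y ⊓ Hh p y) * (W p j y ⊓ Hh p y).relIndex (Hh p y) =
      St.relIndex (Hh p y) :=
    Subgroup.relIndex_mul_relIndex _ _ _ hStW inf_le_right
  rw [Subgroup.inf_relIndex_right] at h1
  have h2 : St.relIndex (Hh p y) = (MulAction.orbit (N p) y).ncard := by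
    have h4 : St.relIndex (Hh p y) = (MulAction.stabilizer (Hh p y) y).index := rfl
    rw [h4, MulAction.index_stabilizer, orbit_Hh, orbit_H]
  have h3 : (W p j y).relIndex (Hh p y) = (MulAction.orbit (N p) (res p j y)).ncard := by
    have h4 : (W p j y).relIndex (Hh p y) =
        (MulAction.stabilizer (Hh p y) (res p j y)).index := rfl
    rw [h4, MulAction.index_stabilizer, orbit_res]
  have h5 : St.relIndex (W p j y ⊓ Hh p y) = (MulAction.orbit (Bj p y j) (y.fn j)).ncard := by
    have h4 : St.relIndex (W p j y ⊓ Hh p y) =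
        (MulAction.stabilizer ↥(W p j y ⊓ Hh p y) y).index := rfl
    rw [h4, MulAction.index_stabilizer, orbit_WH]
  have h6 : (MulAction.orbit (Bj p y j) (y.fn j)).ncard * (Bj p y j).index =
      Nat.card (p j).pts := by
    have h7 : (MulAction.stabilizer (p j).A (y.fn j)).relIndex (Bj p y j) * (Bj p y j).index =
        (MulAction.stabilizer (p j).A (y.fn j)).index :=
      Subgroup.relIndex_mul_index (stab_le p j y)
    have h8 : (MulAction.stabilizer (p j).A (y.fn j)).relIndex (Bj p y j) =
        (MulAction.orbit (Bj p y j) (y.fn j)).ncard := by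
      have h4 : (MulAction.stabilizer (p j).A (y.fn j)).relIndex (Bj p y j) =
          (MulAction.stabilizer (Bj p y j) (y.fn j)).index := rfl
      rw [h4, MulAction.index_stabilizer]
    have h9 : (MulAction.stabilizer (p j).A (y.fn j)).index = Nat.card (p j).pts := by
      rw [MulAction.index_stabilizer, ← Set.ncard_univ]
      congr 1
      apply Set.eq_univ_of_forall
      intro z
      obtain ⟨a, ha⟩ := (p j).transitive (y.fn j) z
      exact ⟨a, ha⟩
    rw [← h8, h7, h9]
  rw [← h2, ← h1, h5, h3, ← h6]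
  ring

/-- the restricted tuple as a point of the product -/
def rpt (y : RT p j) : ∀ k : {k : Fin r // k ≠ j}, Y k := fun k => y.fn k

theorem rpt_inj : Function.Injective (rpt p j) := by
  intro x y h
  funext k
  exact Subtype.ext (congrFun h k)

theorem orbit_rpt (x : RT p j) :
    MulAction.orbit G (rpt p j x) = rpt p j '' MulAction.orbit G x := by
  ext z
  constructor
  · rintro ⟨g, rfl⟩
    exact ⟨g • x, ⟨g, rfl⟩, rfl⟩
  · rintro ⟨_, ⟨g, rfl⟩, rfl⟩
    exact ⟨g, rfl⟩

theorem orbit_rcard (x : RT p j) :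
    Nat.card (MulAction.orbit G (rpt p j x)) = (MulAction.orbit G x).ncard := by
  rw [Nat.card_coe_set_eq, orbit_rpt, Set.ncard_image_of_injective _ (rpt_inj p j)]

/-- **the index bound** -/
theorem index_Bj_le {x y : Tup p} (hy : y ∈ MulAction.orbit G x) {t : ℝ} (ht : 0 ≤ t)
    (h : (Nat.card (p j).pts : ℝ) * (MulAction.orbit G (res p j x)).ncard ≤
      t * (MulAction.orbit G x).ncard) :
    ((Bj p y j).index : ℝ) ≤ (N p).index * t := by
  have h1 := relative p j y
  have h2 := orbit_le p y
  have h3 : MulAction.orbit G y = MulAction.orbit G x := MulAction.orbit_eq_iff.2 hy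
  rw [h3] at h2
  have h4 : MulAction.orbit G (res p j y) = MulAction.orbit G (res p j x) := by
    obtain ⟨g, rfl⟩ := hy
    exact MulAction.orbit_eq_iff.2 ⟨g, rfl⟩
  have h5 : (MulAction.orbit (N p) (res p j y)).ncard ≤
      (MulAction.orbit G (res p j x)).ncard := by
    rw [← h4]
    apply Set.ncard_le_ncard _ (Set.toFinite _)
    rintro _ ⟨σ, rfl⟩
    exact ⟨σ, rfl⟩
  have hpos : (0 : ℝ) < (MulAction.orbit (N p) y).ncard := by
    have h6 : (MulAction.orbit (N p) y).ncard ≠ 0 :=
      Set.ncard_ne_zero_of_mem (MulAction.mem_orbit_self y) (Set.toFinite _)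
    exact_mod_cast Nat.pos_of_ne_zero h6
  have h1' : ((MulAction.orbit (N p) y).ncard : ℝ) * (Bj p y j).index =
      Nat.card (p j).pts * (MulAction.orbit (N p) (res p j y)).ncard := by
    exact_mod_cast h1
  have h2' : ((MulAction.orbit G x).ncard : ℝ) ≤
      (MulAction.orbit (N p) y).ncard * (N p).index := by
    exact_mod_cast h2
  have h5' : ((MulAction.orbit (N p) (res p j y)).ncard : ℝ) ≤
      (MulAction.orbit G (res p j x)).ncard := by
    exact_mod_cast h5
  have h7 : ((MulAction.orbit (N p) y).ncard : ℝ) * (Bj p y j).index ≤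
      (MulAction.orbit (N p) y).ncard * ((N p).index * t) := by
    rw [h1']
    calc (Nat.card (p j).pts : ℝ) * (MulAction.orbit (N p) (res p j y)).ncard
        ≤ Nat.card (p j).pts * (MulAction.orbit G (res p j x)).ncard :=
          mul_le_mul_of_nonneg_left h5' (Nat.cast_nonneg _)
      _ ≤ t * (MulAction.orbit G x).ncard := h
      _ ≤ t * ((MulAction.orbit (N p) y).ncard * (N p).index) :=
          mul_le_mul_of_nonneg_left h2' ht
      _ = _ := by ring
  exact le_of_mul_le_mul_left h7 hpos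

end tuple

end Pool.Agent.P8H27.LO
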